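import Pool.Agent.R498.MP.LinC

set_option autoImplicit false

/-!
# Strings of consecutive primes `p` with almost prime `p ^ 2 + p + A`, in narrow progressions
-/

namespace Pool.Agent.Results.MP_8be758_nt.PrimeStrings

open Filter

/-- `x ^ 2 + x + A` has at most `r` prime factors, counted with multiplicity, all of them at least `w`. -/
def AlmostPrimeValue (A r : ℕ) (w : ℝ) (x : ℕ) : Prop :=
  (x ^ 2 + x + A).primeFactorsList.length ≤ r ∧ ∀ q : ℕ, q.Prime → q ∣ x ^ 2 + x + A → w ≤ q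

/-- The primes in the interval `[x, x + C]` are exactly the numbers `x + h`, `h ∈ H`. -/
def PrimePattern (C : ℕ) (H : Finset ℕ) (x : ℕ) : Prop := ∀ y ≤ C, (x + y).Prime ↔ y ∈ H

/-- **Strings of consecutive primes `p ≡ c` modulo `q` with almost prime `p ^ 2 + p + A`.** Let `A ≥ 1` be
odd, let `q` be squarefree and let `c (c ^ 2 + c + A)` be coprime to `q` (for instance `q = 1`). For every
`m` there are `K`, `r` and `δ > 0` such that, for every finite set `S` of at least `K` nonnegative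
integers and every `l`, there is an exponent `B` such that for all large `N` there are a subset `H` of `S`
with at least `m` elements and an arithmetic progression `n, n + d, ..., n + (l - 1) d` in `(N, 2 N]` with
difference `1 ≤ d ≤ (log N) ^ B` such that for all its terms `x` the primes in `[x, x + max S]` are
exactly the numbers `x + h`, `h ∈ H`, and all these primes `p` are `≡ c` modulo `q` and the numbers
`p ^ 2 + p + A` have at most `r` prime factors, all of them at least `N ^ δ`. -/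
theorem result (A : ℕ) (hA : Odd A) (q c : ℕ) (hq : Squarefree q)
    (hc : Nat.Coprime (c * (c ^ 2 + c + A)) q) (m : ℕ) : ∃ (K r : ℕ) (δ : ℝ), 0 < δ ∧
    ∀ S : Finset ℕ, K ≤ S.card → ∀ l : ℕ, ∃ B : ℕ, ∀ᶠ N : ℕ in atTop,
      ∃ H ⊆ S, m ≤ H.card ∧ ∃ n d : ℕ, 1 ≤ d ∧ (d : ℝ) ≤ Real.log N ^ B ∧
      ∀ j < l, N < n + j * d ∧ n + j * d + S.sup id ≤ 2 * N ∧
        PrimePattern (S.sup id) H (n + j * d) ∧
        ∀ h ∈ H, n + j * d + h ≡ c [MOD q] ∧
          AlmostPrimeValue A r ((N : ℝ) ^ δ) (n + j * d + h) := by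
  have hA1 : 1 ≤ A := hA.pos
  have hev : ∀ n : ℤ, (Polynomial.X ^ 2 + Polynomial.X + Polynomial.C (A : ℤ) :
      Polynomial ℤ).eval n = n ^ 2 + n + A := fun n => by simp
  obtain ⟨K, r, δ, hδ, hmain⟩ := Pool.Agent.R498.MP.stringsCR
    (Polynomial.X ^ 2 + Polynomial.X + Polynomial.C (A : ℤ))
    (fun n _ => by
      rw [hev]
      intro h
      have h1 : (1 : ℤ) ≤ A := by exact_mod_cast hA1
      nlinarith [sq_nonneg (2 * n + 1)])
    (fun p hp => by
      by_contra hcon
      push Not at hcon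
      have h1 := hcon 1
      have hm1 := hcon (-1)
      have h2 := hcon 2
      rw [hev] at h1 hm1 h2
      have hpZ : Prime (p : ℤ) := Nat.prime_iff_prime_int.1 hp
      have e1 : (p : ℤ) ∣ (A : ℤ) + 2 := by
        have e : (1 : ℤ) * (1 ^ 2 + 1 + A) = A + 2 := by ring
        rwa [e] at h1
      have e2 : (p : ℤ) ∣ (A : ℤ) := by
        have e : (-1 : ℤ) * ((-1) ^ 2 + (-1) + A) = -(A : ℤ) := by ring
        rw [e] at hm1
        exact (dvd_neg).1 hm1
      have e3 : (p : ℤ) ∣ 2 := by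
        have h3 := dvd_sub e1 e2
        have e : (A : ℤ) + 2 - A = 2 := by ring
        rwa [e] at h3
      have e4 : p = 2 := (Nat.prime_dvd_prime_iff_eq hp Nat.prime_two).1 (by exact_mod_cast e3)
      subst e4
      obtain ⟨k, rfl⟩ := hA
      push_cast at e2
      omega) q c hq (fun p hp hpq => by
      rw [hev]
      refine Pool.Agent.R498.MP.cop_to _ q ?_ p hp hpq
      have e : (c : ℤ) * ((c : ℤ) ^ 2 + c + A) = ((c * (c ^ 2 + c + A) : ℕ) : ℤ) := by
        push_cast; ring
      rw [e]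
      exact Nat.isCoprime_iff_coprime.2 hc) m
  refine ⟨K, r, δ, hδ, fun S hS l => ?_⟩
  obtain ⟨B, hB⟩ := hmain S hS l
  refine ⟨B, ?_⟩
  filter_upwards [hB] with N hN
  obtain ⟨H, hH, hHm, n, d, h3, h4, h5⟩ := hN
  refine ⟨H, hH, hHm, n, d, h3, h4, fun j hj => ?_⟩
  obtain ⟨g1, g2, g3, g4⟩ := h5 j hj
  refine ⟨g1, g2, g3, fun h hh => ?_⟩
  obtain ⟨gc, -, g5, g6⟩ := g4 h hh
  have e : ((n + j * d + h : ℕ) : ℤ) ^ 2 + ((n + j * d + h : ℕ) : ℤ) + A =
      (((n + j * d + h) ^ 2 + (n + j * d + h) + A : ℕ) : ℤ) := by push_cast; ring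
  rw [hev, e] at g5 g6
  rw [Int.natAbs_natCast] at g5
  exact ⟨gc, g5, fun q hq hqd => g6 q hq (by exact_mod_cast hqd)⟩

end Pool.Agent.Results.MP_8be758_nt.PrimeStrings
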