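import Pool.Agent.R490.Inst

set_option autoImplicit false

/-!
# Regular points of arbitrary sets of the `x` with `x ^ 2 + x + A` prime or rough, uniformly in `A`
-/

namespace Pool.Agent.Results.MP_8be758_nt.RegularPoints

open Finset Filter

/-- The polynomial `x ^ 2 + x + a`. -/
def q (a : ℕ) (x : ℤ) : ℤ := x ^ 2 + x + a

/-- `f m` has no prime factor `≤ y`. -/
def Rough (f : ℤ → ℤ) (y m : ℕ) : Prop := ∀ p : ℕ, p.Prime → p ≤ y → ¬ (p : ℤ) ∣ f (m : ℤ)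

open Classical in
/-- The sieve density: the product of `1 - ρ(p) / p` over the primes `p ≤ y`, where `ρ(p)` is the number of
the residues `m` modulo `p` with `p ∣ f m`. -/
noncomputable def V (f : ℤ → ℤ) (y : ℕ) : ℝ := ∏ p ∈ (Finset.range (y + 1)).filter Nat.Prime,
    (1 - (((Finset.range p).filter (fun m : ℕ => (p : ℤ) ∣ f (m : ℤ))).card : ℝ) / p)

/-- The density of the integers without prime factor `≤ y`; `V f y / V1 y` is the product of the
conjecture, cut at `y`. -/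
noncomputable def V1 (y : ℕ) : ℝ := ∏ p ∈ (Finset.range (y + 1)).filter Nat.Prime, (1 - 1 / (p : ℝ))

open Classical in
/-- The number of elements of `S` in `(a, b]`. -/
noncomputable def count (S : Set ℕ) (a b : ℕ) : ℕ := ((Finset.Ioc a b).filter (fun m => m ∈ S)).card

/-- All intervals `(m - s, m + t]` with `s, t ≤ Y` of length at least `L / κ` contain between
`κ (s + t) / L` and `(s + t) / (κ L)` elements of `S`. -/
def RightOrder (S : Set ℕ) (L κ : ℝ) (Y m : ℕ) : Prop :=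
  ∀ s t : ℕ, s ≤ Y → t ≤ Y → L ≤ κ * (s + t) →
    κ * (s + t) / L ≤ count S (m - s) (m + t) ∧ (count S (m - s) (m + t) : ℝ) ≤ (s + t) / (κ * L)

/-- Up to `δ`, `S` has a constant density on both sides of `m` up to the distance `2 ^ j`. -/
def ConstantDensity (S : Set ℕ) (L κ δ : ℝ) (m j : ℕ) : Prop :=
  ∃ lam : ℝ, κ ≤ lam ∧ lam ≤ 1 / κ ∧ ∀ s t : ℕ, s ≤ 2 ^ j → t ≤ 2 ^ j →
    |(count S (m - s) (m + t) : ℝ) - lam * (s + t) / L| ≤ δ * 2 ^ j / L

open Classical in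
/-- The number of the scales `L ≤ 2 ^ j ≤ Y` without this property. -/
noncomputable def badScales (S : Set ℕ) (L κ δ : ℝ) (Y m : ℕ) : ℕ :=
  ((Finset.range (Nat.log 2 Y + 1)).filter (fun j => L ≤ (2 : ℝ) ^ j ∧ ¬ ConstantDensity S L κ δ m j)).card

/-- The elements of `S` that are not regular points of `S`. -/
def Irregular (S : Set ℕ) (L κ δ : ℝ) (M Y : ℕ) : Set ℕ :=
  {m | m ∈ S ∧ ¬ (RightOrder S L κ Y m ∧ badScales S L κ δ Y m ≤ M)}

/-- **Regular points.** Let `A` and `θ > 0` be given and `r ≥ r0(A, θ)`. For `B, ε > 0` there is `κ > 0`, and for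
`δ > 0` there is `M`, such that for all large `X`, for ALL odd `a ≤ X ^ A` with `V ≤ B V1`, all
`X ^ θ ≤ Y ≤ X`, `u ≥ Y`, and EVERY set `S` of integers `m` such that `m ^ 2 + m + a` has no prime factor
`≤ X ^ (1 / r)`, for instance the set of all `m` for which this is a prime `> X ^ (1 / r)`: all but at most
`ε Y V` of the elements of `S` in `(u, u + Y]` are regular points of `S`: all intervals of length between
`1 / (κ V)` and `Y` around them contain the right order of elements of `S`, and `S` has a constant density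
up to `δ` around them at all but `M` dyadic scales. -/
theorem result (A : ℕ) (θ : ℝ) (hθ : 0 < θ) :
    ∃ r0 : ℕ, 2 ≤ r0 ∧ ∀ r : ℕ, r0 ≤ r → ∀ B ε : ℝ, 0 < B → 0 < ε → ∃ κ : ℝ, 0 < κ ∧
      ∀ δ : ℝ, 0 < δ → ∃ M : ℕ, ∀ᶠ X : ℕ in atTop, ∀ a : ℕ, Odd a →
      a ≤ X ^ A →
      V (q a) ⌊(X : ℝ) ^ (1 / (r : ℝ))⌋₊ ≤ B * V1 ⌊(X : ℝ) ^ (1 / (r : ℝ))⌋₊ →
      ∀ u Y : ℕ, (X : ℝ) ^ θ ≤ Y → Y ≤ X → Y ≤ u →
      ∀ S : Set ℕ, (∀ m ∈ S, Rough (q a) ⌊(X : ℝ) ^ (1 / (r : ℝ))⌋₊ m) →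
        (count (Irregular S (1 / V (q a) ⌊(X : ℝ) ^ (1 / (r : ℝ))⌋₊) κ δ M Y) u (u + Y) : ℝ) ≤
          ε * (Y * V (q a) ⌊(X : ℝ) ^ (1 / (r : ℝ))⌋₊) := by
  obtain ⟨r0, hr0, h0⟩ := Pool.Agent.R490.Sg.regS 2 A θ hθ
  refine ⟨r0, hr0, fun r hr B ε hB hε => ?_⟩
  obtain ⟨κ, hκ, h1⟩ := h0 r hr B ε hB hε
  refine ⟨κ, hκ, fun δ hδ => ?_⟩
  obtain ⟨M, h2⟩ := h1 δ hδ
  refine ⟨M, ?_⟩
  filter_upwards [h2, eventually_ge_atTop 1] with X hX hX1
  intro a ha haX hV u Y hY hYX hYu S hS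
  exact hX _ (q a) (Pool.Agent.R490.Sg.good_A a _ ha (one_le_pow₀ (by exact_mod_cast hX1)) (by exact_mod_cast haX)) _ rfl hV u Y hY hYX hYu S hS

end Pool.Agent.Results.MP_8be758_nt.RegularPoints
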