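import Pool.Agent.R490.UnifA

set_option autoImplicit false

/-!
# Rough values of `x ^ 2 + x + A` in windows: the Poisson law, uniformly in `A` and in the position
-/

namespace Pool.Agent.Results.MP_8be758_nt.UniformPoissonWindows

open Finset

open Classical in
/-- The number of the integers `m` in `(n, n + T]` for which `m ^ 2 + m + A` has no prime factor `≤ y`. -/
noncomputable def W (A y T n : ℕ) : ℕ :=
  ((Ioc n (n + T)).filter (fun m => ∀ p : ℕ, p.Prime → p ≤ y → ¬ p ∣ m ^ 2 + m + A)).card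

open Classical in
/-- The product of `1 - ρ(p) / p` over the primes `p ≤ y`, where `ρ(p)` is the number of the residues `m`
modulo `p` with `p ∣ m ^ 2 + m + A`; this is the density of the integers counted in `W`. -/
noncomputable def V (A y : ℕ) : ℝ := ∏ p ∈ (Finset.range (y + 1)).filter Nat.Prime,
    (1 - (((Finset.range p).filter (fun m : ℕ => p ∣ m ^ 2 + m + A)).card : ℝ) / p)

open Classical in
/-- **Uniform Poisson law.** For all `x0` and `ε > 0` there are `K, y0, T0, R` and `η > 0` such that for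
`y ≥ y0`, `Y ≥ y ^ K`, `T ≥ T0`, `Y ≥ T ^ R`, for EVERY odd `A` with `log (T ^ 2 + 4 A) ≤ η T log T` and
`T V ≤ x0`, and for EVERY interval `(s, s + Y]`: the number `W` of the integers `m` in `(n, n + T]` for which
`m ^ 2 + m + A` has no prime factor `≤ y`, `n` running over `(s, s + Y]`, has the Poisson law with mean
`T V`, up to an error `ε` in total variation. -/
theorem result (x0 ε : ℝ) (hx0 : 0 ≤ x0) (hε : 0 < ε) :
    ∃ (K y0 T0 R : ℕ) (η : ℝ), 0 < η ∧ ∀ Y y T : ℕ, y0 ≤ y → y ^ K ≤ Y → T0 ≤ T → T ^ R ≤ Y →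
      ∀ A s : ℕ, Odd A → Real.log ((T : ℝ) ^ 2 + 4 * A) ≤ η * T * Real.log T → T * V A y ≤ x0 →
      ∀ J : Finset ℕ, |(((Ioc s (s + Y)).filter (fun n => W A y T n ∈ J)).card : ℝ) -
        Y * ∑ j ∈ J, Real.exp (-(T * V A y)) * (T * V A y) ^ j / j.factorial| ≤ ε * Y :=
  Pool.Agent.R490.UA.uniform x0 ε hx0 hε

end Pool.Agent.Results.MP_8be758_nt.UniformPoissonWindows
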